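import Mathlib
import Pool.Agent.Helper83.BO.Main

/-!
# Q1 for blow-ups of projective spaces: one group for every scheme

The definitions are in `Pool/Agent/Helper83/BO/Defs.lean`, which extends `Pool/Agent/Helper83/AS/Defs.lean`
and uses `Pool/Agent/Helper83/OD/Defs.lean`. The schemes are Mathlib's schemes. `T.BM X m j` is the étale motivic
Borel-Moore homology `H_j(X_et, ℤᶜ(-m))` of a separated scheme `X` of finite type over `ℤ`, and `T.H X d n i` is
`Hⁱ(X_et, ℤ(n))`, for `X` regular of dimension `d ≤ n`. `Arithmetic X d` is the class of Q1.

Proof. Let `C ⊂ ℙ^M` be regular of dimension `c`, of codimension at least two, and let `Y` be the blow-up of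
`ℙ^M` along `C`. Then `H_{c-2}(C_et, ℤᶜ(-1)) = Hᶜ⁺²(C_et, ℤ(c + 1))` is a summand of the third term of an exact
sequence whose second term is `H_c(Y_et, ℤᶜ(0)) = H²ᵈ⁻ᶜ(Y_et, ℤ(d))`, `d = dim Y = M + 1`. Assume that these groups of
all `C` are finitely generated; so `H_j(X_et, ℤᶜ(-1))` is finitely generated for all regular proper `X` of the
dimension `j + 2`, and in the lower dimensions too, since this group is a summand of `H_j(ℙ^N × X)`. We show
the same for all `X` of dimension `d ≥ j + 3` by induction on `d`; by an alteration we may assume that `X` is a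
scheme over the Gaussian integers. Let `A = H_j(X)`, and for a nonempty affine open subscheme `V` let `A(V)` be
the kernel of the restriction to `H_j(V)`. By Artin vanishing `A / A(V)` is torsion free, and `A` is the union of
the `A(V)`; since `A / 2 A` is finite, Nakayama's lemma shows that `A` is finitely generated if all `A(V)` are.
Let `X' ⟶ X` be an alteration such that the preimage of `X ∖ V` is in a divisor `E` with strict normal
crossings, and let `Y` be an ample regular divisor on `X'` which meets all strata of `E` transversally. By
induction the groups `H_q(S ∖ Y)`, `S` a stratum of dimension `e`, are finitely generated for `q ≤ e - 2`, and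
they are divisible by Artin vanishing, so they are zero. It follows that `H_j(E ∖ Y)` is a torsion group. The
pull-back of an element of `A(V)` comes from `E`, so its restriction to `X' ∖ Y` is torsion, so it is zero by
Artin vanishing, and the pull-back comes from `H_j(Y)`, which is finitely generated by induction. The weights
`-m < -1` follow by the projective bundle formula, and arbitrary schemes by de Jong's alterations.
-/

set_option autoImplicit false

open CategoryTheory AlgebraicGeometry

namespace Pool.Agent.Helper83.Kept.OneGroup

open Pool.Agent.Helper83.BO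

open Pool.Agent.Helper83.AS (FiniteType Arithmetic IsProjective Rational)

universe v

/-- The following conditions are equivalent.

(1) For all blow-ups `Y` of projective spaces over `ℤ` along one regular connected centre `C`, `c = dim C`,
`d = dim Y`, the one group `H²ᵈ⁻ᶜ(Y_et, ℤ(d))` is finitely generated.

(2) Q1 holds for all these schemes `Y`.

(3) For all regular connected projective `C` the one group `Hᶜ⁺²(C_et, ℤ(c + 1))`, `c = dim C`, is finitely
generated.

(4) For all separated schemes `X` of finite type over `ℤ` all groups `H_j(X_et, ℤᶜ(-m))`, `m ≥ 1`, are finitely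
generated (and zero for `j > 2 dim X`). -/
theorem result (T : Theory.{v}) (hT : T.Standard) (hG : Geometry) :
    List.TFAE [
      ∀ (C Y : Scheme.{0}) (c d : ℕ), Arithmetic C c → Rational C c Y d →
        AddGroup.FG (T.H Y d d (2 * d - c)),
      ∀ (C Y : Scheme.{0}) (c d : ℕ), Arithmetic C c → Rational C c Y d → T.Q1 Y d,
      ∀ (C : Scheme.{0}) (c : ℕ), Arithmetic C c → IsProjective C → AddGroup.FG (T.H C c (c + 1) (c + 2)),
      ∀ X : Scheme.{0}, FiniteType X → T.Negative X] := by
  have h31 : (∀ (C Y : Scheme.{0}) (c d : ℕ), Arithmetic C c → Rational C c Y d →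
      AddGroup.FG (T.H Y d d (2 * d - c))) →
      ∀ (C : Scheme.{0}) (c : ℕ), Arithmetic C c → IsProjective C →
        AddGroup.FG (T.H C c (c + 1) (c + 2)) := fun h C c hC hCp =>
    (fg_H (by omega) (by ring)).2 (fg_centre hT hG hC hCp fun Y d hY _ => h C Y c d hC hY)
  have h34 : (∀ (C : Scheme.{0}) (c : ℕ), Arithmetic C c → IsProjective C →
      AddGroup.FG (T.H C c (c + 1) (c + 2))) → ∀ X : Scheme.{0}, FiniteType X → T.Negative X := fun h X hX =>
    negative_all hT hG (fun c C hC hCp => (fg_H (by omega) (by ring)).1 (h C c hC hCp)) hX
  have h42 : (∀ X : Scheme.{0}, FiniteType X → T.Negative X) →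
      ∀ (C Y : Scheme.{0}) (c d : ℕ), Arithmetic C c → Rational C c Y d → T.Q1 Y d := by
    intro h C Y c d hC hY i hi0 hi
    obtain ⟨t, ht⟩ := Int.eq_ofNat_of_zero_le (sub_nonneg.2 hi)
    have h1 := Helper83.AS.sample_of_negative hT.toAS (R := fun _ _ => True) hC hY
      ((Helper83.AS.negative_iff hT.toAS hC.finiteType).1 (h C hC.finiteType)) t trivial (by omega)
    exact (fg_H (by omega) (by omega)).2 ((fg_H (m := 0) (j := (t : ℤ)) (by omega) (by ring)).1 h1)
  have h21 : (∀ (C Y : Scheme.{0}) (c d : ℕ), Arithmetic C c → Rational C c Y d → T.Q1 Y d) →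
      ∀ (C Y : Scheme.{0}) (c d : ℕ), Arithmetic C c → Rational C c Y d →
        AddGroup.FG (T.H Y d d (2 * d - c)) := by
    intro h C Y c d hC hY
    have hcd : c ≤ d := by
      obtain ⟨M, -, -, rfl, hM, -⟩ := hY
      omega
    exact h C Y c d hC hY _ (by omega) (by omega)
  tfae_have 1 → 3 := h31
  tfae_have 3 → 4 := h34
  tfae_have 4 → 2 := h42
  tfae_have 2 → 1 := h21
  tfae_finish

end Pool.Agent.Helper83.Kept.OneGroup
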